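import Mathlib

set_option autoImplicit false

namespace Pool.Agent.Results.MP_155d71_an.NoFixedPoint

open BoundedContinuousFunction Filter Topology

section Defs

variable {S : Type} [Semigroup S] [TopologicalSpace S]

/-- The left translate `(ℓ_s f)(t) = f (s t)` of a bounded continuous complex function. -/
noncomputable def leftTrans (hl : ∀ s : S, Continuous fun t : S => s * t) (s : S) (f : S →ᵇ ℂ) :
    S →ᵇ ℂ :=
  f.compContinuous ⟨fun t => s * t, hl s⟩

/-- `f ∈ LUC(S)`: the map `s ↦ ℓ_s f` is continuous for the sup norm on `C_b(S)`. -/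
def IsLUC (hl : ∀ s : S, Continuous fun t : S => s * t) (f : S →ᵇ ℂ) : Prop :=
  Continuous fun s : S => leftTrans hl s f

/-- `m` restricted to `LUC(S)` is a mean: linear, of norm at most one, and `m 1 = 1`. -/
def IsMean (hl : ∀ s : S, Continuous fun t : S => s * t) (m : (S →ᵇ ℂ) → ℂ) : Prop :=
  (∀ f g, IsLUC hl f → IsLUC hl g → m (f + g) = m f + m g) ∧
    (∀ (c : ℂ) f, IsLUC hl f → m (c • f) = c * m f) ∧
    (∀ f, IsLUC hl f → ‖m f‖ ≤ ‖f‖) ∧ m 1 = 1

/-- `LUC(S)` carries a multiplicative left invariant mean. -/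
def ExtremelyLeftAmenable (hl : ∀ s : S, Continuous fun t : S => s * t) : Prop :=
  ∃ m : (S →ᵇ ℂ) → ℂ, IsMean hl m ∧
    (∀ (s : S) f, IsLUC hl f → m (leftTrans hl s f) = m f) ∧
    ∀ f g, IsLUC hl f → IsLUC hl g → m (f * g) = m f * m g

/-- The inclusion of a subset `C` of `E` into `E` with its weak topology. -/
noncomputable def wk {E : Type} [NormedAddCommGroup E] [NormedSpace ℝ E] (C : Set E) (x : C) :
    WeakSpace ℝ E :=
  toWeakSpace ℝ E x

/-- The weak topology of `E` restricted to `C`. -/
@[reducible] noncomputable def weakTop {E : Type} [NormedAddCommGroup E] [NormedSpace ℝ E]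
    (C : Set E) : TopologicalSpace C :=
  TopologicalSpace.induced (wk C) inferInstance

end Defs

abbrev H := lp (fun _ : ℕ => ℝ) 2

noncomputable def e (n : ℕ) : H := lp.single 2 n 1

lemma e_apply (n k : ℕ) : e n k = if k = n then 1 else 0 := by
  unfold e
  rw [lp.single_apply, Pi.single_apply]

lemma norm_e (n : ℕ) : ‖e n‖ = 1 := by
  unfold e
  rw [lp.norm_single (by norm_num)]
  simp

lemma coord_tendsto (x : H) : Tendsto (fun n => x n) atTop (𝓝 0) := by
  have h := (lp.memℓp x).summable (by norm_num)
  have h1 := h.tendsto_atTop_zero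
  have h2 : Tendsto (fun n => ‖x n‖ ^ (2 : ℕ)) atTop (𝓝 0) := by
    simpa using h1
  have h3 := h2.sqrt
  simp only [Real.sqrt_sq (norm_nonneg _), Real.sqrt_zero] at h3
  exact tendsto_zero_iff_norm_tendsto_zero.2 h3

lemma e_weak : Tendsto (fun n => toWeakSpace ℝ H (e n)) atTop (𝓝 (toWeakSpace ℝ H 0)) := by
  refine (WeakBilin.tendsto_iff_forall_eval_tendsto _ ?_).2 fun f => ?_
  · exact separatingDual_iff_injective.1 inferInstance
  · obtain ⟨y, rfl⟩ := (InnerProductSpace.toDual ℝ H).surjective f
    change Tendsto (fun n => inner ℝ y (e n)) atTop (𝓝 (inner ℝ y (0 : H)))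
    simp only [e, lp.inner_single_right, inner_zero_right]
    simpa using coord_tendsto y

def K : Set H := insert 0 (Set.range e)

lemma K_compact : IsCompact (toWeakSpace ℝ H '' K) := by
  unfold K
  rw [Set.image_insert_eq, ← Set.range_comp]
  exact e_weak.isCompact_insert_range

instance : T2Space (WeakSpace ℝ H) :=
  (WeakBilin.isEmbedding (B := (topDualPairing ℝ H).flip)
    (separatingDual_iff_injective.1 inferInstance)).t2Space

lemma wk_inj : Function.Injective (wk K) := fun _ _ h =>
  Subtype.ext ((toWeakSpace ℝ H).injective h)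

structure SG where
  f : K → K
  cont : Continuous[weakTop K, weakTop K] f
  nonexp : ∀ x y : K, ‖(f x : H) - f y‖ ≤ ‖(x : H) - y‖

instance : Semigroup SG where
  mul s t := ⟨s.f ∘ t.f, @Continuous.comp _ _ _ (weakTop K) (weakTop K) (weakTop K) _ _
    s.cont t.cont, fun x y => (s.nonexp _ _).trans (t.nonexp x y)⟩
  mul_assoc _ _ _ := rfl

noncomputable def emb (s : SG) (x : K) : WeakSpace ℝ H := wk K (s.f x)

noncomputable instance : TopologicalSpace SG := TopologicalSpace.induced emb inferInstance

lemma emb_emb : IsEmbedding emb := by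
  refine ⟨⟨rfl⟩, fun s t h => ?_⟩
  have : s.f = t.f := funext fun x => wk_inj (congrFun h x)
  cases s
  cases t
  congr

lemma ev_cont (x : K) : Continuous[inferInstance, weakTop K] fun s : SG => s.f x :=
  continuous_induced_rng.2 ((continuous_apply x).comp emb_emb.continuous)

lemma hl (s : SG) : Continuous fun t : SG => s * t := by
  refine continuous_induced_rng.2 (continuous_pi fun x => ?_)
  have h : Continuous[inferInstance, weakTop K] fun t : SG => s.f (t.f x) :=
    @Continuous.comp _ _ _ _ (weakTop K) (weakTop K) _ _ s.cont (ev_cont x)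
  exact continuous_induced_rng.1 h

lemma hr (t : SG) : Continuous fun s : SG => s * t := by
  refine continuous_induced_rng.2 (continuous_pi fun x => ?_)
  exact (continuous_apply (t.f x)).comp emb_emb.continuous

def cst (b : K) : SG :=
  ⟨fun _ => b, @continuous_const _ _ (weakTop K) (weakTop K) b, fun x y => by simp⟩

noncomputable def z : K := ⟨0, Set.mem_insert _ _⟩

noncomputable def ek (n : ℕ) : K := ⟨e n, Or.inr ⟨n, rfl⟩⟩

lemma coord_mem (n : ℕ) (x : K) : (x : H) n = 0 ∨ (x : H) n = 1 := by
  rcases x with ⟨_, rfl | ⟨k, rfl⟩⟩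
  · left; rfl
  · simp only [e_apply]
    split_ifs <;> simp

lemma norm_K (b : K) : ‖(b : H)‖ ≤ 1 := by
  rcases b with ⟨_, rfl | ⟨k, rfl⟩⟩
  · simp
  · exact (norm_e k).le

noncomputable def bump (b : K) (n : ℕ) : SG where
  f x := ⟨(x : H) n • (b : H), by
    rcases coord_mem n x with h | h
    · rw [h, zero_smul]; exact Set.mem_insert _ _
    · rw [h, one_smul]; exact b.2⟩
  cont := by
    let := weakTop K
    refine continuous_induced_rng.2 ?_
    have h1 : Continuous fun x : WeakSpace ℝ H => (innerSL ℝ (e n)) x :=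
      WeakBilin.eval_continuous (topDualPairing ℝ H).flip (innerSL ℝ (e n))
    have h2 : Continuous fun x : K => (innerSL ℝ (e n)) (wk K x) := h1.comp continuous_induced_dom
    have h3 : Continuous fun x : K => (innerSL ℝ (e n)) (wk K x) • wk K b :=
      h2.smul continuous_const
    refine h3.congr fun x => ?_
    change inner ℝ (e n) (x : H) • (b : H) = (x : H) n • (b : H)
    simp [e, lp.inner_single_left]
  nonexp x y := by
    simp only
    rw [← sub_smul, norm_smul]
    have h1 : ‖(x : H) n - (y : H) n‖ ≤ ‖(x : H) - y‖ :=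
      lp.norm_apply_le_norm (by norm_num) ((x : H) - (y : H)) n
    calc _ ≤ ‖(x : H) - y‖ * 1 := mul_le_mul h1 (norm_K b) (norm_nonneg _) (norm_nonneg _)
      _ = _ := mul_one _

lemma bump_tendsto (b : K) : Tendsto (bump b) atTop (𝓝 (cst z)) := by
  rw [emb_emb.tendsto_nhds_iff, tendsto_pi_nhds]
  intro x
  have h : Tendsto (fun n => (x : H) n • wk K b) atTop (𝓝 ((0 : ℝ) • wk K b)) :=
    (coord_tendsto x).smul_const _
  rw [zero_smul] at h
  exact h

lemma luc_const (f : SG →ᵇ ℂ) (hf : IsLUC hl f) (b : K) : f (cst b) = f (cst z) := by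
  have h1 : Tendsto (fun n => leftTrans hl (bump b n) f) atTop (𝓝 (leftTrans hl (cst z) f)) :=
    (hf.tendsto _).comp (bump_tendsto b)
  have h2 := tendsto_iff_dist_tendsto_zero.1 h1
  have h3 : ∀ n, dist (f (cst b)) (f (cst z)) ≤
      dist (leftTrans hl (bump b n) f) (leftTrans hl (cst z) f) := by
    intro n
    have := dist_coe_le_dist (f := leftTrans hl (bump b n) f) (g := leftTrans hl (cst z) f)
      (cst (ek n))
    have e1 : bump b n * cst (ek n) = cst b := by
      apply emb_emb.injective
      funext x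
      change e n n • (b : H) = b
      simp [e_apply]
    change dist (f (bump b n * cst (ek n))) (f (cst z)) ≤ _ at this
    rwa [e1] at this
  exact dist_le_zero.1 (ge_of_tendsto' h2 h3)

lemma ela : ExtremelyLeftAmenable hl :=
  ⟨fun f => f (cst z), ⟨fun _ _ _ _ => rfl, fun _ _ _ => rfl, fun f _ => norm_coe_le_norm f _, rfl⟩,
    fun s f hf => luc_const f hf (s.f z), fun _ _ _ _ => rfl⟩

/-- It is false that every weakly (separately) continuous norm nonexpansive representation of an
extremely left amenable semitopological semigroup on a weakly closed subset of a Banach space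
having a relatively weakly compact orbit has a common fixed point. -/
theorem result :
    ¬ ∀ (S : Type) [Semigroup S] [TopologicalSpace S] [T2Space S]
        (hl : ∀ s : S, Continuous fun t : S => s * t),
        (∀ t : S, Continuous fun s : S => s * t) →
        ExtremelyLeftAmenable hl →
        ∀ (E : Type) [NormedAddCommGroup E] [NormedSpace ℝ E] [CompleteSpace E] (C : Set E),
          IsClosed (Set.range (wk C)) →
          ∀ T : S → C → C,
            (∀ s t : S, T (s * t) = T s ∘ T t) →
            (∀ (s : S) (x y : C), ‖(T s x : E) - T s y‖ ≤ ‖(x : E) - y‖) →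
            (∀ s : S, @Continuous C C (weakTop C) (weakTop C) (T s)) →
            (∀ x : C, @Continuous S C _ (weakTop C) fun s => T s x) →
            (∃ c : C, IsCompact (closure (Set.range fun s : S => wk C (T s c)))) →
            ∃ z : C, ∀ s : S, T s z = z := by
  intro h
  have := emb_emb.t2Space
  have hK : Set.range (wk K) = toWeakSpace ℝ H '' K := by
    rw [Set.image_eq_range]; rfl
  have hc : IsClosed (Set.range (wk K)) := hK ▸ K_compact.isClosed
  obtain ⟨w, hw⟩ := h SG hl hr ela H K hc SG.f (fun _ _ => rfl) SG.nonexp SG.cont ev_cont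
    ⟨z, K_compact.of_isClosed_subset isClosed_closure (by
      rw [← hK]
      exact closure_minimal (by rintro _ ⟨s, rfl⟩; exact ⟨_, rfl⟩) hc)⟩
  have h1 : z = ek 0 := (hw (cst z)).trans (hw (cst (ek 0))).symm
  have h2 : (0 : H) = e 0 := congrArg Subtype.val h1
  have h3 := norm_e 0
  rw [← h2] at h3
  simp at h3

end Pool.Agent.Results.MP_155d71_an.NoFixedPoint
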